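import Pool.Agent.H94C.Cover
import Pool.Agent.H94C.Share2

/-!
# MP_c650fd_co: almost all families of total area `3` (of any total area above `2`) cover
-/

set_option autoImplicit false

namespace Pool.Agent.Results.MP_c650fd_co.AlmostAllFamilies

open MeasureTheory

/-- The family of homothets of `K` of ratios `r i` covers `K`: there are translation vectors
`t i` with `K ⊆ ⋃ i, (r i • K + t i)`. -/
def Covers (K : Set (EuclideanSpace ℝ (Fin 2))) {m : ℕ} (r : Fin m → ℝ) : Prop :=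
  ∃ t : Fin m → EuclideanSpace ℝ (Fin 2), K ⊆ ⋃ i, (fun x => r i • x + t i) '' K

/-- The open simplex of the area vectors `(v_0, …, v_{n-1})` with `v_i > 0` and `∑ v_i < T`; the
area of the last of `n + 1` homothets of total area `T` is then `T - ∑ v_i > 0`. -/
def areas (T : ℝ) (n : ℕ) : Set (Fin n → ℝ) := {v | (∀ i, 0 < v i) ∧ ∑ i, v i < T}

/-- The ratios of the `n + 1` homothets of a body of area `1` whose areas are
`v_0, …, v_{n-1}, T - ∑ v_i`. -/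
noncomputable def ratios (T : ℝ) {n : ℕ} (v : Fin n → ℝ) : Fin (n + 1) → ℝ :=
  fun i => √((Fin.snoc v (T - ∑ j, v j) : Fin (n + 1) → ℝ) i)

theorem covers_of_small (K : Set (EuclideanSpace ℝ (Fin 2))) (hK : Convex ℝ K) (hc : IsCompact K)
    (hi : (interior K).Nonempty) (m : ℕ) (r : Fin m → ℝ) (hr : ∀ i, 0 < r i) (ρ : ℝ)
    (hρ0 : 0 ≤ ρ) (hρ : ∀ i, r i ≤ ρ) (hs : 2 + 5 * ρ ≤ ∑ i, r i ^ 2) : Covers K r :=
  Pool.Agent.H94C.cover_small K hK hc hi m r hr hρ0 hρ hs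

/-- larger homothets cover as well -/
theorem covers_mono {K : Set (EuclideanSpace ℝ (Fin 2))} (hK : Convex ℝ K) (hne : K.Nonempty)
    {m : ℕ} {r r' : Fin m → ℝ} (hr : ∀ i, 0 < r' i) (hle : ∀ i, r' i ≤ r i) (h : Covers K r') :
    Covers K r := by
  obtain ⟨p, hp⟩ := hne
  obtain ⟨t, ht⟩ := h
  refine ⟨fun i => t i - (r i - r' i) • p, fun x hx => ?_⟩
  obtain ⟨i, y, hy, hyx⟩ := Set.mem_iUnion.1 (ht hx)
  simp only at hyx
  have hri : 0 < r i := (hr i).trans_le (hle i)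
  have h1 : r' i / r i ≤ 1 := (div_le_one hri).2 (hle i)
  have h2 : 0 ≤ r' i / r i := div_nonneg (hr i).le hri.le
  refine Set.mem_iUnion.2 ⟨i, (r' i / r i) • y + (1 - r' i / r i) • p,
    hK hy hp h2 (sub_nonneg.2 h1) (by ring), ?_⟩
  simp only
  rw [← hyx, smul_add, smul_smul, smul_smul, mul_div_cancel₀ _ hri.ne', mul_sub, mul_one,
    mul_div_cancel₀ _ hri.ne']
  module

theorem covers_of_min (K : Set (EuclideanSpace ℝ (Fin 2))) (hK : Convex ℝ K) (hc : IsCompact K)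
    (hi : (interior K).Nonempty) (m : ℕ) (r : Fin m → ℝ) (hr : ∀ i, 0 < r i) (ρ : ℝ)
    (hρ0 : 0 ≤ ρ) (hs : 2 + 5 * ρ ≤ ∑ i, min (r i) ρ ^ 2) : Covers K r := by
  rcases hρ0.eq_or_lt with h | h
  · exfalso
    have h1 : ∑ i, min (r i) ρ ^ 2 = 0 := by
      refine Finset.sum_eq_zero fun i _ => ?_
      rw [← h, min_eq_right (hr i).le]
      norm_num
    rw [h1] at hs
    linarith
  · exact covers_mono hK (hi.mono interior_subset) (fun i => lt_min (hr i) h)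
      (fun i => min_le_left _ _) (covers_of_small K hK hc hi m _ (fun i => lt_min (hr i) h) ρ hρ0
        (fun i => min_le_right _ _) hs)

theorem bad_sub (K : Set (EuclideanSpace ℝ (Fin 2))) (hK : Convex ℝ K) (hc : IsCompact K)
    (hi : (interior K).Nonempty) {T ρ : ℝ} (hρ : 0 < ρ) (hT : 2 + 5 * ρ ≤ T) (n : ℕ) :
    {v | v ∈ areas T n ∧ ¬ Covers K (ratios T v)} ⊆
      Pool.Agent.H94C.bad (ρ ^ 2) T n (⌊(T - 2 - 5 * ρ) / ρ ^ 2⌋₊ + 1) := by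
  rintro v ⟨hv, hn⟩
  refine ⟨hv, ?_⟩
  have hs : 0 < ρ ^ 2 := pow_pos hρ 2
  have hpos : ∀ i, 0 < (Fin.snoc v (T - ∑ j, v j) : Fin (n + 1) → ℝ) i := by
    intro i
    refine Fin.lastCases ?_ (fun j => ?_) i
    · rw [Fin.snoc_last]
      linarith [hv.2]
    · rw [Fin.snoc_castSucc]
      exact hv.1 j
  have h1 : ∑ i, min (ratios T v i) ρ ^ 2 < 2 + 5 * ρ := by
    by_contra hcon
    push Not at hcon
    exact hn (covers_of_min K hK hc hi (n + 1) (ratios T v) (fun i => Real.sqrt_pos.2 (hpos i)) ρ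
      hρ.le hcon)
  have h2 : ∀ i, (Fin.snoc v (T - ∑ j, v j) : Fin (n + 1) → ℝ) i - min (ratios T v i) ρ ^ 2 ≤
      ρ ^ 2 * Pool.Agent.H94C.gs (ρ ^ 2) ((Fin.snoc v (T - ∑ j, v j) : Fin (n + 1) → ℝ) i) := by
    intro i
    rcases le_total (ratios T v i) ρ with h | h
    · rw [min_eq_left h]
      have e : ratios T v i ^ 2 = (Fin.snoc v (T - ∑ j, v j) : Fin (n + 1) → ℝ) i :=
        Real.sq_sqrt (hpos i).le
      rw [e, sub_self]
      positivity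
    · rw [min_eq_right h]
      exact Pool.Agent.H94C.sub_le_gs hs
  have h3 : ∑ i, (Fin.snoc v (T - ∑ j, v j) : Fin (n + 1) → ℝ) i = T := by
    rw [Fin.sum_univ_castSucc]
    simp only [Fin.snoc_castSucc, Fin.snoc_last]
    ring
  have h4 : ∑ i, Pool.Agent.H94C.gs (ρ ^ 2) ((Fin.snoc v (T - ∑ j, v j) : Fin (n + 1) → ℝ) i) =
      ∑ i, Pool.Agent.H94C.gs (ρ ^ 2) (v i) +
        Pool.Agent.H94C.gs (ρ ^ 2) (T - ∑ i, v i) := by
    rw [Fin.sum_univ_castSucc]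
    simp only [Fin.snoc_castSucc, Fin.snoc_last]
  have h5 := Finset.sum_le_sum fun i (_ : i ∈ Finset.univ) => h2 i
  rw [Finset.sum_sub_distrib, h3, ← Finset.mul_sum] at h5
  have h6 : ((∑ i, Pool.Agent.H94C.gs (ρ ^ 2)
      ((Fin.snoc v (T - ∑ j, v j) : Fin (n + 1) → ℝ) i) : ℕ) : ℝ) =
      ∑ i, (Pool.Agent.H94C.gs (ρ ^ 2)
        ((Fin.snoc v (T - ∑ j, v j) : Fin (n + 1) → ℝ) i) : ℝ) := by push_cast; rfl
  rw [← h6, h4] at h5
  have h7 : (T - 2 - 5 * ρ) / ρ ^ 2 < ((∑ i, Pool.Agent.H94C.gs (ρ ^ 2) (v i) +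
        Pool.Agent.H94C.gs (ρ ^ 2) (T - ∑ i, v i) : ℕ) : ℝ) := by
    rw [div_lt_iff₀ hs]
    linarith
  exact (Nat.floor_lt (div_nonneg (by linarith) hs.le)).2 h7

theorem share_le (K : Set (EuclideanSpace ℝ (Fin 2))) (hK : Convex ℝ K) (hc : IsCompact K)
    (hi : (interior K).Nonempty) (T ρ : ℝ) (n : ℕ) (hρ : 0 < ρ) (hρ1 : ρ ≤ 1)
    (hT : 2 + 5 * ρ ≤ T) :
    volume {v | v ∈ areas T n ∧ ¬ Covers K (ratios T v)} ≤
      ((n : ENNReal) + 1) ^ (⌊(T - 2 - 5 * ρ) / ρ ^ 2⌋₊ + 1) * ENNReal.ofReal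
        ((1 - ((⌊(T - 2 - 5 * ρ) / ρ ^ 2⌋₊ + 1 : ℕ) : ℝ) * ρ ^ 2 / T) ^ n) *
          volume (areas T n) := by
  refine (measure_mono (bad_sub K hK hc hi hρ hT n)).trans
    (Pool.Agent.H94C.share_bad (pow_pos hρ 2) n _ ?_)
  have hs : 0 < ρ ^ 2 := pow_pos hρ 2
  have h1 : (⌊(T - 2 - 5 * ρ) / ρ ^ 2⌋₊ : ℝ) ≤ (T - 2 - 5 * ρ) / ρ ^ 2 :=
    Nat.floor_le (div_nonneg (by linarith) hs.le)
  rw [le_div_iff₀ hs] at h1
  push_cast
  nlinarith

/-- **Almost all families cover.** -/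
theorem result :
    (∀ K : Set (EuclideanSpace ℝ (Fin 2)), Convex ℝ K → IsCompact K → (interior K).Nonempty →
      ∀ (T ρ : ℝ) (n : ℕ), 0 < ρ → ρ ≤ 1 → 2 + 5 * ρ ≤ T →
      volume {v | v ∈ areas T n ∧ ¬ Covers K (ratios T v)} ≤
        ((n : ENNReal) + 1) ^ (⌊(T - 2 - 5 * ρ) / ρ ^ 2⌋₊ + 1) * ENNReal.ofReal
          ((1 - ((⌊(T - 2 - 5 * ρ) / ρ ^ 2⌋₊ + 1 : ℕ) : ℝ) * ρ ^ 2 / T) ^ n) *
            volume (areas T n)) ∧
    (∀ T δ : ℝ, 2 < T → 0 < δ → ∃ n₀ : ℕ, ∀ n ≥ n₀, ∀ K : Set (EuclideanSpace ℝ (Fin 2)),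
      Convex ℝ K → IsCompact K → (interior K).Nonempty →
      volume {v | v ∈ areas T n ∧ ¬ Covers K (ratios T v)} ≤
        ENNReal.ofReal ((2 / T + δ) ^ n) * volume (areas T n)) := by
  refine ⟨fun K hK hc hi T ρ n => share_le K hK hc hi T ρ n, fun T δ hT hδ => ?_⟩
  have hT0 : 0 < T := by linarith
  obtain ⟨ρ, hρ0, hρ1, hρT, hρδ⟩ : ∃ ρ : ℝ, 0 < ρ ∧ ρ ≤ 1 ∧ 2 + 5 * ρ ≤ T ∧
      5 * ρ / T ≤ δ / 2 := by
    refine ⟨min 1 (min ((T - 2) / 5) (δ * T / 10)), ?_, min_le_left _ _, ?_, ?_⟩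
    · exact lt_min one_pos (lt_min (by linarith) (by positivity))
    · have := (min_le_right 1 (min ((T - 2) / 5) (δ * T / 10))).trans (min_le_left _ _)
      linarith
    · have := (min_le_right 1 (min ((T - 2) / 5) (δ * T / 10))).trans (min_le_right _ _)
      rw [div_le_iff₀ hT0]
      linarith
  have hs : 0 < ρ ^ 2 := pow_pos hρ0 2
  obtain ⟨q, hq⟩ : ∃ q : ℕ, q = ⌊(T - 2 - 5 * ρ) / ρ ^ 2⌋₊ + 1 := ⟨_, rfl⟩
  have h1 : T - 2 - 5 * ρ ≤ q * ρ ^ 2 := by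
    have := (Nat.lt_floor_add_one ((T - 2 - 5 * ρ) / ρ ^ 2)).le
    rw [div_le_iff₀ hs] at this
    rw [hq]
    push_cast
    exact this
  have h2 : q * ρ ^ 2 < T := by
    have h3 : (⌊(T - 2 - 5 * ρ) / ρ ^ 2⌋₊ : ℝ) ≤ (T - 2 - 5 * ρ) / ρ ^ 2 :=
      Nat.floor_le (div_nonneg (by linarith) hs.le)
    rw [le_div_iff₀ hs] at h3
    rw [hq]
    push_cast
    nlinarith
  have hx0 : 0 ≤ 1 - q * ρ ^ 2 / T := by
    rw [sub_nonneg, div_le_one hT0]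
    exact h2.le
  have hx1 : 1 - q * ρ ^ 2 / T ≤ 2 / T + δ / 2 := by
    have h3 : (T - 2 - 5 * ρ) / T ≤ q * ρ ^ 2 / T := div_le_div_of_nonneg_right h1 hT0.le
    have h4 : (T - 2 - 5 * ρ) / T = 1 - 2 / T - 5 * ρ / T := by field_simp
    linarith
  have hz : 0 < 2 / T + δ := by positivity
  have hy : 0 ≤ 2 / T + δ / 2 := by positivity
  have hr0 : 0 ≤ (2 / T + δ / 2) / (2 / T + δ) := by positivity
  have hr1 : (2 / T + δ / 2) / (2 / T + δ) < 1 := by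
    rw [div_lt_one hz]
    linarith
  have hlim : Filter.Tendsto (fun n : ℕ => 2 ^ q * ((n : ℝ) ^ q *
      ((2 / T + δ / 2) / (2 / T + δ)) ^ n)) Filter.atTop (nhds (2 ^ q * 0)) :=
    (tendsto_pow_const_mul_const_pow_of_lt_one q hr0 hr1).const_mul _
  rw [mul_zero] at hlim
  obtain ⟨n₀, hn₀⟩ := Filter.eventually_atTop.1 (hlim.eventually_le_const one_pos)
  refine ⟨max n₀ 1, fun n hn K hK hc hi => ?_⟩
  have hn1 : (1 : ℝ) ≤ n := by exact_mod_cast (le_max_right _ _).trans hn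
  have h5 := hn₀ n ((le_max_left _ _).trans hn)
  refine (share_le K hK hc hi T ρ n hρ0 hρ1 hρT).trans ?_
  rw [← hq]
  refine mul_le_mul' ?_ le_rfl
  have e1 : ((n : ENNReal) + 1) ^ q = ENNReal.ofReal (((n : ℝ) + 1) ^ q) := by
    rw [ENNReal.ofReal_pow (by positivity), ENNReal.ofReal_add (by positivity) zero_le_one,
      ENNReal.ofReal_natCast, ENNReal.ofReal_one]
  rw [e1, ← ENNReal.ofReal_mul (by positivity)]
  refine ENNReal.ofReal_le_ofReal ?_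
  calc ((n : ℝ) + 1) ^ q * (1 - q * ρ ^ 2 / T) ^ n
      ≤ (2 * n) ^ q * (2 / T + δ / 2) ^ n := by
        refine mul_le_mul (pow_le_pow_left₀ (by positivity) (by linarith) q)
          (pow_le_pow_left₀ hx0 hx1 n) (pow_nonneg hx0 n) (by positivity)
    _ = 2 ^ q * ((n : ℝ) ^ q * ((2 / T + δ / 2) / (2 / T + δ)) ^ n) * (2 / T + δ) ^ n := by
        rw [div_pow, mul_pow]
        field_simp
    _ ≤ 1 * (2 / T + δ) ^ n := mul_le_mul_of_nonneg_right h5 (by positivity)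
    _ = (2 / T + δ) ^ n := one_mul _

end Pool.Agent.Results.MP_c650fd_co.AlmostAllFamilies
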