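import Pool.Agent.H55.Cov.Body

/-!
# MP_c650fd_co: `f_2(K) ≤ 4.85` for every planar convex body
-/

set_option autoImplicit false

namespace Pool.Agent.Results.MP_c650fd_co.BoundFourEightFive

/-- The family of homothets of `K` of ratios `r i` covers `K`: there are translation vectors
`t i` with `K ⊆ ⋃ i, (r i • K + t i)`. -/
def Covers (K : Set (EuclideanSpace ℝ (Fin 2))) {m : ℕ} (r : Fin m → ℝ) : Prop :=
  ∃ t : Fin m → EuclideanSpace ℝ (Fin 2), K ⊆ ⋃ i, (fun x => r i • x + t i) '' K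

/-- The `s > 0` such that every finite family of positive ratios with `∑ r i ^ 2 ≥ s` covers `K`.
For a body `K` of area `1`, `∑ r i ^ 2` is the total area of the homothets. -/
def thresholds (K : Set (EuclideanSpace ℝ (Fin 2))) : Set ℝ :=
  {s | 0 < s ∧ ∀ (m : ℕ) (r : Fin m → ℝ), (∀ i, 0 < r i) → s ≤ ∑ i, r i ^ 2 → Covers K r}

/-- `f_2(K)`, the infimum of the thresholds. -/
noncomputable def f2 (K : Set (EuclideanSpace ℝ (Fin 2))) : ℝ := sInf (thresholds K)

theorem result (K : Set (EuclideanSpace ℝ (Fin 2))) (hK : Convex ℝ K) (hc : IsCompact K)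
    (hi : (interior K).Nonempty) : (97 / 20 : ℝ) ∈ thresholds K ∧ f2 K ≤ 97 / 20 := by
  have h : (97 / 20 : ℝ) ∈ thresholds K :=
    ⟨by norm_num, fun m r hr hs => Pool.Agent.H55.Homo.cover_body K hK hc hi m r hr hs⟩
  exact ⟨h, csInf_le ⟨0, fun s hs => hs.1.le⟩ h⟩

end Pool.Agent.Results.MP_c650fd_co.BoundFourEightFive
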