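import Pool.Agent.H94C.Cover

/-!
# MP_c650fd_co: homothets of small ratio
-/

set_option autoImplicit false

namespace Pool.Agent.Results.MP_c650fd_co.SmallRatios

/-- The family of homothets of `K` of ratios `r i` covers `K`: there are translation vectors
`t i` with `K ⊆ ⋃ i, (r i • K + t i)`. -/
def Covers (K : Set (EuclideanSpace ℝ (Fin 2))) {m : ℕ} (r : Fin m → ℝ) : Prop :=
  ∃ t : Fin m → EuclideanSpace ℝ (Fin 2), K ⊆ ⋃ i, (fun x => r i • x + t i) '' K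

theorem covers_of_small (K : Set (EuclideanSpace ℝ (Fin 2))) (hK : Convex ℝ K) (hc : IsCompact K)
    (hi : (interior K).Nonempty) (m : ℕ) (r : Fin m → ℝ) (hr : ∀ i, 0 < r i) (ρ : ℝ)
    (hρ0 : 0 ≤ ρ) (hρ : ∀ i, r i ≤ ρ) (hs : 2 + 5 * ρ ≤ ∑ i, r i ^ 2) : Covers K r :=
  Pool.Agent.H94C.cover_small K hK hc hi m r hr hρ0 hρ hs

/-- larger homothets cover as well -/
theorem covers_mono {K : Set (EuclideanSpace ℝ (Fin 2))} (hK : Convex ℝ K) (hne : K.Nonempty)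
    {m : ℕ} {r r' : Fin m → ℝ} (hr : ∀ i, 0 < r' i) (hle : ∀ i, r' i ≤ r i) (h : Covers K r') :
    Covers K r := by
  obtain ⟨p, hp⟩ := hne
  obtain ⟨t, ht⟩ := h
  refine ⟨fun i => t i - (r i - r' i) • p, fun x hx => ?_⟩
  obtain ⟨i, y, hy, hyx⟩ := Set.mem_iUnion.1 (ht hx)
  simp only at hyx
  have hri : 0 < r i := (hr i).trans_le (hle i)
  have h1 : r' i / r i ≤ 1 := (div_le_one hri).2 (hle i)
  have h2 : 0 ≤ r' i / r i := div_nonneg (hr i).le hri.le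
  refine Set.mem_iUnion.2 ⟨i, (r' i / r i) • y + (1 - r' i / r i) • p,
    hK hy hp h2 (sub_nonneg.2 h1) (by ring), ?_⟩
  simp only
  rw [← hyx, smul_add, smul_smul, smul_smul, mul_div_cancel₀ _ hri.ne', mul_sub, mul_one,
    mul_div_cancel₀ _ hri.ne']
  module

theorem covers_of_min (K : Set (EuclideanSpace ℝ (Fin 2))) (hK : Convex ℝ K) (hc : IsCompact K)
    (hi : (interior K).Nonempty) (m : ℕ) (r : Fin m → ℝ) (hr : ∀ i, 0 < r i) (ρ : ℝ)
    (hρ0 : 0 ≤ ρ) (hs : 2 + 5 * ρ ≤ ∑ i, min (r i) ρ ^ 2) : Covers K r := by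
  rcases hρ0.eq_or_lt with h | h
  · exfalso
    have h1 : ∑ i, min (r i) ρ ^ 2 = 0 := by
      refine Finset.sum_eq_zero fun i _ => ?_
      rw [← h, min_eq_right (hr i).le]
      norm_num
    rw [h1] at hs
    linarith
  · exact covers_mono hK (hi.mono interior_subset) (fun i => lt_min (hr i) h)
      (fun i => min_le_left _ _) (covers_of_small K hK hc hi m _ (fun i => lt_min (hr i) h) ρ hρ0
        (fun i => min_le_right _ _) hs)

theorem result (K : Set (EuclideanSpace ℝ (Fin 2))) (hK : Convex ℝ K) (hc : IsCompact K)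
    (hi : (interior K).Nonempty) :
    (∀ (m : ℕ) (r : Fin m → ℝ) (ρ : ℝ), (∀ i, 0 < r i) → 0 ≤ ρ →
      2 + 5 * ρ ≤ ∑ i, min (r i) ρ ^ 2 → Covers K r) ∧
    (∀ (m : ℕ) (r : Fin m → ℝ), (∀ i, 0 < r i) → (∀ i, r i ≤ 1 / 5) →
      3 ≤ ∑ i, r i ^ 2 → Covers K r) := by
  exact ⟨fun m r ρ hr h0 hs => covers_of_min K hK hc hi m r hr ρ h0 hs,
    fun m r hr hρ hs => covers_of_small K hK hc hi m r hr (1 / 5) (by norm_num) hρ
      (by linarith)⟩

end Pool.Agent.Results.MP_c650fd_co.SmallRatios
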