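import Pool.Agent.H94C.Cover2

/-!
# MP_c650fd_co: families of total area `3` with at most two large members
-/

set_option autoImplicit false

namespace Pool.Agent.Results.MP_c650fd_co.TwoLargeRatios

open Finset

/-- The family of homothets of `K` of ratios `r i` covers `K`: there are translation vectors
`t i` with `K ⊆ ⋃ i, (r i • K + t i)`. -/
def Covers (K : Set (EuclideanSpace ℝ (Fin 2))) {m : ℕ} (r : Fin m → ℝ) : Prop :=
  ∃ t : Fin m → EuclideanSpace ℝ (Fin 2), K ⊆ ⋃ i, (fun x => r i • x + t i) '' K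

/-- a smaller homothet lies in a larger one -/
theorem mem_larger {K : Set (EuclideanSpace ℝ (Fin 2))} (hK : Convex ℝ K)
    {p : EuclideanSpace ℝ (Fin 2)} (hp : p ∈ K) {s r : ℝ} (hs : 0 < s) (hsr : s ≤ r)
    (t z : EuclideanSpace ℝ (Fin 2)) (hz : z ∈ (fun x => s • x + t) '' K) :
    z ∈ (fun x => r • x + (t - (r - s) • p)) '' K := by
  obtain ⟨y, hy, hyz⟩ := hz
  simp only at hyz
  have hr : 0 < r := hs.trans_le hsr
  have h1 : s / r ≤ 1 := (div_le_one hr).2 hsr
  have h2 : 0 ≤ s / r := div_nonneg hs.le hr.le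
  refine ⟨(s / r) • y + (1 - s / r) • p, hK hy hp h2 (sub_nonneg.2 h1) (by ring), ?_⟩
  simp only
  rw [← hyz, smul_add, smul_smul, smul_smul, mul_div_cancel₀ _ hr.ne', mul_sub, mul_one,
    mul_div_cancel₀ _ hr.ne']
  module

theorem covers_of_big {K : Set (EuclideanSpace ℝ (Fin 2))} (hK : Convex ℝ K)
    (hne : K.Nonempty) {m : ℕ} {r : Fin m → ℝ} {j : Fin m} (hj : 1 ≤ r j) : Covers K r := by
  obtain ⟨p, hp⟩ := hne
  refine ⟨fun i => 0 - (r i - 1) • p, fun z hz => Set.mem_iUnion.2 ⟨j, ?_⟩⟩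
  exact mem_larger hK hp one_pos hj 0 z ⟨z, hz, by simp⟩

theorem covers_of_one (K : Set (EuclideanSpace ℝ (Fin 2))) (hK : Convex ℝ K) (hc : IsCompact K)
    (hi : (interior K).Nonempty) {m : ℕ} (r : Fin m → ℝ) (hr : ∀ i, 0 < r i) (j : Fin m) (ρ : ℝ)
    (hρ0 : 0 ≤ ρ) (hs : 2 * (1 - r j ^ 2) + (7 + 4 * r j) * ρ + ρ ^ 2 ≤
      ∑ i ∈ univ.erase j, min (r i) ρ ^ 2) : Covers K r := by
  classical
  have hne : K.Nonempty := hi.mono interior_subset
  rcases le_or_gt 1 (r j) with hbig | hbig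
  · exact covers_of_big hK hne hbig
  have hρp : 0 < ρ := by
    rcases hρ0.eq_or_lt with h | h
    · exfalso
      have h1 : ∑ i ∈ univ.erase j, min (r i) ρ ^ 2 = 0 := by
        refine sum_eq_zero fun i _ => ?_
        rw [← h, min_eq_right (hr i).le]
        norm_num
      rw [h1, ← h] at hs
      have := hr j
      nlinarith
    · exact h
  set S : Finset (Fin m) := univ.erase j with hS
  set e := S.equivFin with he
  obtain ⟨t0, t, ht⟩ := Pool.Agent.H94C.cover_large K hK hc hi (hr j) hbig S.card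
    (fun k => min (r (e.symm k)) ρ) (fun k => lt_min (hr _) hρp) hρ0 (fun k => min_le_right _ _) (by
      have h1 : ∑ k, min (r (e.symm k)) ρ ^ 2 = ∑ i : S, min (r i) ρ ^ 2 :=
        Equiv.sum_comp e.symm (fun i : S => min (r i) ρ ^ 2)
      rw [h1, Finset.sum_coe_sort S (fun i => min (r i) ρ ^ 2)]
      exact hs)
  obtain ⟨p, hp⟩ := hne
  refine ⟨fun i => if h : i ∈ S then t (e ⟨i, h⟩) - (r i - min (r i) ρ) • p else t0,
    fun z hz => ?_⟩
  rcases ht z hz with h1 | ⟨k, hk⟩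
  · refine Set.mem_iUnion.2 ⟨j, ?_⟩
    have h2 : j ∉ S := by simp [hS]
    simp only [h2, dif_neg, not_false_eq_true]
    exact h1
  · refine Set.mem_iUnion.2 ⟨(e.symm k : Fin m), ?_⟩
    have h2 : ((e.symm k : S) : Fin m) ∈ S := (e.symm k).2
    simp only [h2, dif_pos, Subtype.coe_eta, Equiv.apply_symm_apply]
    exact mem_larger hK hp (lt_min (hr _) hρp) (min_le_left _ _) _ z hk

theorem covers_of_two (K : Set (EuclideanSpace ℝ (Fin 2))) (hK : Convex ℝ K) (hc : IsCompact K)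
    (hi : (interior K).Nonempty) {m : ℕ} (r : Fin m → ℝ) (hr : ∀ i, 0 < r i) (a b : Fin m) (ρ : ℝ)
    (hρ0 : 0 ≤ ρ) (h3 : 3 ≤ ∑ i, r i ^ 2)
    (hs : ∑ i with i ≠ a ∧ i ≠ b ∧ ρ < r i, r i ^ 2 ≤ 1 - 11 * ρ - ρ ^ 2) (hab : r b ≤ r a) :
    Covers K r := by
  classical
  have hne : K.Nonempty := hi.mono interior_subset
  rcases le_or_gt 1 (r a) with hbig | hbig
  · exact covers_of_big hK hne hbig
  refine covers_of_one K hK hc hi r hr a ρ hρ0 ?_
  have ha := hr a
  have hb := hr b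
  have h1 : ∑ i, r i ^ 2 = r a ^ 2 + ∑ i ∈ univ.erase a, r i ^ 2 :=
    (add_sum_erase univ (fun i => r i ^ 2) (mem_univ a)).symm
  have h2 : ∑ i ∈ univ.erase a, r i ^ 2 ≤ ∑ i ∈ univ.erase a, min (r i) ρ ^ 2 + r b ^ 2 +
      ∑ i with i ≠ a ∧ i ≠ b ∧ ρ < r i, r i ^ 2 := by
    have e1 : ∑ i with i ≠ a ∧ i ≠ b ∧ ρ < r i, r i ^ 2 =
        ∑ i ∈ univ.erase a, if i ≠ b ∧ ρ < r i then r i ^ 2 else 0 := by
      rw [← sum_filter]
      refine sum_congr ?_ fun _ _ => rfl
      ext i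
      simp only [mem_filter, mem_univ, true_and, mem_erase, and_true, ne_eq]
    have e2 : ∑ i ∈ univ.erase a, (if i = b then r b ^ 2 else 0) ≤ r b ^ 2 := by
      rw [sum_ite_eq']
      split_ifs
      · exact le_rfl
      · positivity
    have e3 : ∑ i ∈ univ.erase a, r i ^ 2 ≤ ∑ i ∈ univ.erase a, (min (r i) ρ ^ 2 +
        (if i = b then r b ^ 2 else 0) + if i ≠ b ∧ ρ < r i then r i ^ 2 else 0) := by
      refine sum_le_sum fun i _ => ?_
      have hm : 0 ≤ min (r i) ρ ^ 2 := sq_nonneg _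
      by_cases h4 : i = b
      · subst h4
        simp
        exact hm
      · by_cases h5 : ρ < r i
        · simp only [h4, h5, if_false, ne_eq, not_false_eq_true, and_self, if_true]
          linarith
        · push Not at h5
          rw [min_eq_left h5]
          simp only [h4, not_lt.2 h5, if_false, and_false]
          linarith
    rw [sum_add_distrib, sum_add_distrib] at e3
    rw [e1]
    linarith
  have h4 : r b ^ 2 ≤ r a ^ 2 := pow_le_pow_left₀ hb.le hab 2
  have h5 : (7 + 4 * r a) * ρ ≤ 11 * ρ := mul_le_mul_of_nonneg_right (by linarith) hρ0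
  linarith

/-- **Families with one or two large members.** -/
theorem result (K : Set (EuclideanSpace ℝ (Fin 2))) (hK : Convex ℝ K) (hc : IsCompact K)
    (hi : (interior K).Nonempty) (m : ℕ) (r : Fin m → ℝ) (hr : ∀ i, 0 < r i) :
    (∀ (j : Fin m) (ρ : ℝ), 0 ≤ ρ → 2 * (1 - r j ^ 2) + (7 + 4 * r j) * ρ + ρ ^ 2 ≤
      ∑ i ∈ univ.erase j, min (r i) ρ ^ 2 → Covers K r) ∧
    (∀ (a b : Fin m) (ρ : ℝ), 0 ≤ ρ → 3 ≤ ∑ i, r i ^ 2 →
      ∑ i with i ≠ a ∧ i ≠ b ∧ ρ < r i, r i ^ 2 ≤ 1 - 11 * ρ - ρ ^ 2 → Covers K r) ∧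
    ((univ.filter fun i => 1 / 12 < r i).card ≤ 2 → 3 ≤ ∑ i, r i ^ 2 → Covers K r) := by
  classical
  have h2 : ∀ (a b : Fin m) (ρ : ℝ), 0 ≤ ρ → 3 ≤ ∑ i, r i ^ 2 →
      ∑ i with i ≠ a ∧ i ≠ b ∧ ρ < r i, r i ^ 2 ≤ 1 - 11 * ρ - ρ ^ 2 → Covers K r := by
    intro a b ρ h0 h3 hs
    rcases le_total (r b) (r a) with h | h
    · exact covers_of_two K hK hc hi r hr a b ρ h0 h3 hs h
    · refine covers_of_two K hK hc hi r hr b a ρ h0 h3 ?_ h
      have e : (univ.filter fun i => i ≠ b ∧ i ≠ a ∧ ρ < r i) =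
          univ.filter fun i => i ≠ a ∧ i ≠ b ∧ ρ < r i := by
        ext i
        simp only [mem_filter, mem_univ, true_and]
        tauto
      rw [e]
      exact hs
  refine ⟨fun j ρ h0 hs => covers_of_one K hK hc hi r hr j ρ h0 hs, h2, fun hcard h3 => ?_⟩
  have hm : 0 < m := by
    rcases Nat.eq_zero_or_pos m with h | h
    · subst h
      simp at h3
      norm_num at h3
    · exact h
  -- two indices which contain all large members
  obtain ⟨a, b, hab⟩ : ∃ a b : Fin m, ∀ i, 1 / 12 < r i → i = a ∨ i = b := by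
    set B := univ.filter fun i => 1 / 12 < r i with hB
    have hmem : ∀ i, 1 / 12 < r i → i ∈ B := fun i h => by simpa [hB] using h
    rcases B.eq_empty_or_nonempty with h0 | ⟨a, ha⟩
    · refine ⟨⟨0, hm⟩, ⟨0, hm⟩, fun i h => ?_⟩
      have := hmem i h
      rw [h0] at this
      exact absurd this (notMem_empty i)
    · rcases (B.erase a).eq_empty_or_nonempty with h1 | ⟨b, hb⟩
      · refine ⟨a, a, fun i h => ?_⟩
        left
        by_contra hne
        have := mem_erase.2 ⟨hne, hmem i h⟩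
        rw [h1] at this
        exact absurd this (notMem_empty i)
      · refine ⟨a, b, fun i h => ?_⟩
        by_contra hne
        push Not at hne
        have h4 : i ∈ (B.erase a).erase b := mem_erase.2 ⟨hne.2, mem_erase.2 ⟨hne.1, hmem i h⟩⟩
        have h5 := card_erase_of_mem hb
        have h6 := card_erase_of_mem ha
        have h7 := card_pos.2 ⟨i, h4⟩
        omega
  refine h2 a b (1 / 12) (by norm_num) h3 ?_
  have e : (univ.filter fun i => i ≠ a ∧ i ≠ b ∧ 1 / 12 < r i) = ∅ := by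
    ext i
    simp only [mem_filter, mem_univ, true_and, notMem_empty, iff_false]
    rintro ⟨h4, h5, h6⟩
    rcases hab i h6 with h | h
    · exact h4 h
    · exact h5 h
  rw [e, sum_empty]
  norm_num

end Pool.Agent.Results.MP_c650fd_co.TwoLargeRatios
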